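import Pool.Agent.Helper74.RN.St

set_option autoImplicit false

namespace Pool.Agent.Helper42.RN

open Pool.Agent.Helper74 Pool.Agent.Helper74.RN
open Pool.Agent.Helper74.DI (q2 sth InH Rch)

theorem finite_Ki : Finite Ki := by
  have hinj : Function.Injective
      (fun κ : Ki => match κ with
        | .L => (none : Option (Bool × Fin 4))
        | .k p j => some (p, j)) := by
    intro a b h
    cases a <;> cases b <;> simp_all
  exact Finite.of_injective _ hinj

/-- What is read at the place number `v`. -/
theorem read_eq (hRDB : StRDB) {G : Type} (w : List (Option G)) (v : ℕ) (c : Cd)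
    (h : (Cl w.length)[v]? = some c) :
    vr c.1 (rp w c.2.1) (rp w c.2.2) = (decide (v = 0), (Wd w)[v - 1]?) := by
  have h1 := congrArg (fun l => l[v]?) (hRDB G w)
  simp only [List.getElem?_map, h, Option.map_some] at h1
  cases v with
  | zero =>
    rw [List.getElem?_cons_zero, Option.some.injEq] at h1
    rw [h1]
    simp [Wd]
  | succ u =>
    rw [List.getElem?_cons_succ] at h1
    by_cases hu : u < (Wd w).length
    · rw [List.getElem?_append_left (by rw [List.length_map]; exact hu),
        List.getElem?_map, List.getElem?_eq_getElem hu, Option.map_some,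
        Option.some.injEq] at h1
      rw [h1, Nat.add_sub_cancel, List.getElem?_eq_getElem hu]
      simp
    · rw [List.getElem?_append_right (by rw [List.length_map]; omega), List.length_map] at h1
      by_cases hu2 : u = (Wd w).length
      · rw [hu2, Nat.sub_self, List.getElem?_cons_zero, Option.some.injEq] at h1
        rw [h1, Nat.add_sub_cancel, List.getElem?_eq_none (by omega)]
        simp
      · rw [List.getElem?_eq_none (by rw [List.length_singleton]; omega)] at h1
        exact absurd h1 (by simp)

theorem len_Cl (hRDB : StRDB) {G : Type} (w : List (Option G)) :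
    (Cl w.length).length = (Wd w).length + 2 := by
  have h1 := congrArg List.length (hRDB G w)
  simpa using h1

theorem some_of_lt {α : Type} (l : List α) (i : ℕ) (h : i < l.length) : ∃ c, l[i]? = some c :=
  ⟨l[i], List.getElem?_eq_getElem h⟩

theorem lt_of_some {α : Type} (l : List α) (i : ℕ) (c : α) (h : l[i]? = some c) :
    i < l.length := by
  by_contra h1
  rw [List.getElem?_eq_none (by omega)] at h
  exact absurd h (by simp)

/-- The moves. -/
theorem move_eq (hCHN : StCHN) (hRDB : StRDB) {G : Type} (w : List (Option G)) (v : ℕ) (c : Cd)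
    (h : (Cl w.length)[v]? = some c) (d : Fin 3) :
    (Cl w.length)[mv (Wd w).length v d]? =
      some ((mo d c.1 (rp w c.2.1) (rp w c.2.2)).1,
        mv w.length c.2.1 (mo d c.1 (rp w c.2.1) (rp w c.2.2)).2.1,
        mv w.length c.2.2 (mo d c.1 (rp w c.2.1) (rp w c.2.2)).2.2) := by
  obtain ⟨hC, hR, hL⟩ := hCHN G w
  have hlen := len_Cl hRDB w
  have hv := lt_of_some _ _ _ h
  by_cases h0 : d = 0
  · subst h0
    have e1 : ((mo 0 c.1 (rp w c.2.1) (rp w c.2.2)).1,
        mv w.length c.2.1 (mo 0 c.1 (rp w c.2.1) (rp w c.2.2)).2.1,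
        mv w.length c.2.2 (mo 0 c.1 (rp w c.2.1) (rp w c.2.2)).2.2) = stL w c := by
      simp only [mo, if_true, stL]
    have e2 : mv (Wd w).length v 0 = v - 1 := by simp [mv]
    rw [e1, e2]
    cases v with
    | zero =>
      have h3 : c = (.L, 0, 0) := by
        simp only [Cl, List.getElem?_cons_zero, Option.some.injEq] at h
        exact h.symm
      rw [h3, hL]
      simp [Cl]
    | succ u =>
      rw [Nat.add_sub_cancel]
      obtain ⟨c0, hc0⟩ := some_of_lt (Cl w.length) u (by omega)
      rw [hc0, (chn_get w _ hC u c0 c hc0 h).2]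
  · by_cases h1 : d = 1
    · subst h1
      have e1 : mo 1 c.1 (rp w c.2.1) (rp w c.2.2) = (c.1, 1, 1) := by
        simp [mo]
      have e2 : ∀ n p : ℕ, mv n p 1 = p := by
        intro n p; simp [mv]
      rw [e1, e2, e2, e2, h]
    · have e1 : ((mo d c.1 (rp w c.2.1) (rp w c.2.2)).1,
        mv w.length c.2.1 (mo d c.1 (rp w c.2.1) (rp w c.2.2)).2.1,
        mv w.length c.2.2 (mo d c.1 (rp w c.2.1) (rp w c.2.2)).2.2) = stR w c := by
        simp only [mo, if_neg h0, if_neg h1, stR]
      have e2 : mv (Wd w).length v d = min (v + 1) ((Wd w).length + 1) := by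
        simp only [mv, if_neg h0, if_neg h1]
      rw [e1, e2]
      by_cases hlast : v = (Wd w).length + 1
      · have h3 : c = (.k false 0, 0, 0) := by
          have h4 : (Cm w.length).length = (Wd w).length := by
            have h5 := hlen
            simp only [Cl, List.length_cons, List.length_append, List.length_nil] at h5
            omega
          rw [hlast] at h
          simp only [Cl, List.getElem?_cons_succ] at h
          rw [List.getElem?_append_right (by omega), h4, Nat.sub_self,
            List.getElem?_cons_zero, Option.some.injEq] at h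
          exact h.symm
        rw [min_eq_right (by omega), ← hlast, h, h3, hR]
      · obtain ⟨c1, hc1⟩ := some_of_lt (Cl w.length) (v + 1) (by omega)
        rw [min_eq_left (by omega), hc1, (chn_get w _ hC v c c1 h hc1).1]

theorem hSIV (hCHN : StCHN) (hRDB : StRDB) : StSIV := by
  rintro G K ⟨Q, hQ, H, hH, δ, q₀, acc, hK⟩
  haveI := hQ
  haveI := hH
  haveI := finite_Ki
  refine ⟨Q × (H → Ki), inferInstance, H × Bool, inferInstance, dv δ, (q₀, fun _ => .L),
    {q | q.1 ∈ acc}, fun w => ?_⟩
  have key : ∀ n : ℕ,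
      ((sth (dv δ) w)^[n] ((q₀, fun _ => Ki.L), fun _ => 0)).1.1 =
        ((sth δ (Wd w))^[n] (q₀, fun _ => 0)).1 ∧
      ∀ h : H, (Cl w.length)[((sth δ (Wd w))^[n] (q₀, fun _ => 0)).2 h]? =
        some (((sth (dv δ) w)^[n] ((q₀, fun _ => Ki.L), fun _ => 0)).1.2 h,
          ((sth (dv δ) w)^[n] ((q₀, fun _ => Ki.L), fun _ => 0)).2 (h, true),
          ((sth (dv δ) w)^[n] ((q₀, fun _ => Ki.L), fun _ => 0)).2 (h, false)) := by
    intro n
    induction n with
    | zero =>
      refine ⟨rfl, fun h => ?_⟩
      simp [Cl]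
    | succ n ih =>
      rw [Function.iterate_succ_apply', Function.iterate_succ_apply']
      generalize (sth (dv δ) w)^[n] ((q₀, fun _ => Ki.L), fun _ => 0) = c' at ih ⊢
      generalize (sth δ (Wd w))^[n] (q₀, fun _ => 0) = c at ih ⊢
      obtain ⟨ih1, ih2⟩ := ih
      have hrd : (fun h => vr (c'.1.2 h) (rp w (c'.2 (h, true))) (rp w (c'.2 (h, false)))) =
          (fun h => (decide (c.2 h = 0), (Wd w)[c.2 h - 1]?)) := by
        funext h
        exact read_eq hRDB w (c.2 h) _ (ih2 h)
      have ho : δ c'.1.1 (fun h => vr (c'.1.2 h) (rp w (c'.2 (h, true)))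
          (rp w (c'.2 (h, false)))) = δ c.1 (fun h => (decide (c.2 h = 0), (Wd w)[c.2 h - 1]?)) := by
        rw [hrd, ih1]
      refine ⟨?_, fun h => ?_⟩
      · change (δ c'.1.1 (fun h => vr (c'.1.2 h) (rp w (c'.2 (h, true)))
          (rp w (c'.2 (h, false))))).1 = _
        rw [ho]
        rfl
      · have hm := move_eq hCHN hRDB w (c.2 h) _ (ih2 h)
          ((δ c.1 (fun h => (decide (c.2 h = 0), (Wd w)[c.2 h - 1]?))).2 h)
        have e1 : ((sth δ (Wd w)) c).2 h = mv (Wd w).length (c.2 h)
            ((δ c.1 (fun h => (decide (c.2 h = 0), (Wd w)[c.2 h - 1]?))).2 h) := rfl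
        rw [e1, hm]
        rw [← ho]
        rfl
  change Wd w ∈ K ↔ _
  rw [hK (Wd w)]
  constructor
  · rintro ⟨n, hn⟩
    refine ⟨n, ?_⟩
    change _ ∈ acc
    rw [(key n).1]
    exact hn
  · rintro ⟨n, hn⟩
    refine ⟨n, ?_⟩
    change _ ∈ acc at hn
    rw [(key n).1] at hn
    exact hn

end Pool.Agent.Helper42.RN
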